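import Mathlib
import Pool.Agent.Helper9.TG.TreeDefs
import Pool.Agent.Helper9.TF.Chain
import Pool.Agent.Helper9.TF.StepF
import Pool.Agent.Helper48.TF.Entry

/-!
# Module RB: the integral form of the vector of a tree
-/

namespace Pool.Agent.Helper48.TG

open Complex Finset
open Pool.Agent.Helper9.TG Pool.Agent.Helper9.TB Pool.Agent.Helper9.TF
open Pool.Agent.Helper48.TF
open scoped Matrix

/-! ### recursion of the kernel -/

lemma rb_Ly_even (y : ℂ) : Ly (-y) = Ly y := by
  unfold Ly
  rw [mul_neg, Complex.cos_neg]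

lemma rb_dLy_odd (y : ℂ) : dLy (-y) = -dLy y := by
  unfold dLy
  rw [mul_neg, Complex.sin_neg]
  ring

lemma rb_Ly_diff : Differentiable ℂ Ly := by
  unfold Ly
  fun_prop

lemma rb_bb_ne {N k : ℕ} (hk0 : 0 < k) (hk : k < N) : bb N k ≠ 0 := by
  have hN : (0 : ℝ) < N := by exact_mod_cast (by omega : 0 < N)
  have h1 : 0 < sb ((k : ℝ) / N) := by
    unfold sb
    have : 0 < Real.sin (Real.pi * ((k : ℝ) / N)) := by
      apply Real.sin_pos_of_pos_of_lt_pi
      · have : (0 : ℝ) < k := by exact_mod_cast hk0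
        have := Real.pi_pos
        positivity
      · have h2 : (k : ℝ) / N < 1 := by
          rw [div_lt_one hN]
          exact_mod_cast hk
        nlinarith [Real.pi_pos]
    linarith
  unfold bb
  have h2 : (-(sb ((k : ℝ) / N)) ^ 2 : ℝ) ≠ 0 := neg_ne_zero.mpr (pow_ne_zero 2 h1.ne')
  exact_mod_cast h2

lemma rb_gm_succ {N m : ℕ} (hm : m + 1 < N) (y : ℂ) :
    bb N (m + 1 : ℕ) * gm N (m + 1) y = (Ly y - lam N m) * gm N m y := by
  have hN : 0 < N := by omega
  have hb := rb_bb_ne (N := N) (k := m + 1) (by omega) hm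
  rw [gm_eq hN, gm_eq hN, prod_range_succ, sf_succ]
  unfold bb at hb ⊢
  have q1 : ((sf N m : ℝ) : ℂ) ≠ 0 := by
    have := sf_pos (M := (N : ℝ)) (n := m) (by exact_mod_cast (by omega : m < N))
    exact_mod_cast this.ne'
  have q2 : ((sb ((m + 1 : ℕ) / (N : ℝ)) : ℝ) : ℂ) ≠ 0 := by
    intro h0
    apply hb
    push_cast at h0 ⊢
    rw [h0]
    ring
  push_cast at q2 ⊢
  rw [pow_succ]
  field_simp
  ring

lemma rb_bb_refl {N k : ℕ} (hk0 : 0 < k) (hk : k ≤ N) : bb N (N - k : ℕ) = bb N k := by
  have hN : (N : ℝ) ≠ 0 := by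
    have : (0 : ℝ) < N := by exact_mod_cast (by omega : 0 < N)
    exact this.ne'
  unfold bb sb
  congr 4
  rw [← Real.sin_pi_sub, Nat.cast_sub hk]
  congr 1
  field_simp
  ring

lemma rb_site_cont {N a : ℕ} {h : ℝ} (hh : 0 < h) {g : ℂ → ℂ} (hg : Differentiable ℂ g) (m : ℕ) :
    ContinuousOn (fun y => om N a y * gm N m y * g y) (PS h) :=
  ((om_contOn hh).mul (gm_differentiable N m).continuous.continuousOn).mul hg.continuous.continuousOn

lemma rb_site_cont' {N a : ℕ} {h : ℝ} (hh : 0 < h) {g : ℂ → ℂ} (hg : Differentiable ℂ g) (m : ℕ)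
    (c : ℂ) : ContinuousOn (fun y => c * (om N a y * gm N m y * g y)) (PS h) :=
  continuousOn_const.mul (rb_site_cont hh hg m)

/-- the vector of a function -/
noncomputable def VV (N a : ℕ) (h : ℝ) (g : ℂ → ℂ) (l : Fin N) : ℂ := site N a h g (N - 1 - l)

lemma rb_LM_apply {N : ℕ} (v : Fin N → ℂ) (l : Fin N) : (LM N *ᵥ v) l =
    lam N l * v l + (if h : 0 < (l : ℕ) then bb N l * v ⟨l - 1, by omega⟩ else 0) := by
  have h1 := Bm_mul (N := N) (lam N) (bb N) (fun a _ => v a) l l
  exact h1

lemma rb_LM {N a : ℕ} {h : ℝ} (hh : 0 < h) {g : ℂ → ℂ} (hg : Differentiable ℂ g)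
    (hev : ∀ y, g (-y) = g y) :
    LM N *ᵥ VV N a h g = VV N a h (fun y => Ly y * g y) := by
  funext l
  have hN : 0 < N := lt_of_le_of_lt (Nat.zero_le _) l.2
  have hNR : (N : ℝ) - 1 / 2 < N := by linarith
  obtain ⟨l, hl⟩ := l
  rw [rb_LM_apply]
  simp only [VV]
  unfold site
  by_cases h0 : 0 < l
  · rw [dif_pos h0, ← PI_mul, ← PI_mul, ← PI_add hh.le
      (rb_site_cont' hh hg _ _) (rb_site_cont' hh hg _ _)]
    apply PI_congr hh.le
    intro y _
    have e1 : N - 1 - (l - 1) = (N - 1 - l) + 1 := by omega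
    have h1 := rb_gm_succ (N := N) (m := N - 1 - l) (by omega) y
    rw [e1]
    have e2 : N - 1 - l + 1 = N - l := by omega
    have h2 := rb_bb_refl (N := N) (k := l) h0 hl.le
    rw [lam_refl hN hl, e2, h2] at h1
    rw [e2]
    linear_combination (om N a y * g y) * h1
  · rw [dif_neg h0, add_zero]
    obtain rfl : l = 0 := by omega
    have e0 : PI (fun y => om N a y * gm N (N - 1) y * ((Ly y - lam N (N - 1)) * g y)) h = 0 := by
      have key : PI (fun y => om N a y * gm N (N - 1) y * ((Ly y - lam N (N - 1)) * g y)) h =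
          PI (fun y => Complex.exp (Real.pi * Complex.I * (a * N) * y ^ 2) * dLy y *
            ((-1) ^ (N - 1) / ((sf N (N - 1) : ℝ) : ℂ) ^ 2 * g y)) h := by
        apply PI_congr hh.le
        intro y hy
        have hne : ∀ k, k < N → Ly y - lam N k ≠ 0 := fun k hk => Ly_ne hNR hk hh hy
        have hDN : DN N y ≠ 0 := prod_ne_zero_iff.2 fun k hk => hne k (mem_range.1 hk)
        unfold om
        rw [gm_eq hN]
        have h2 : (∏ k ∈ range (N - 1), (Ly y - lam N k)) * (Ly y - lam N (N - 1)) = DN N y := by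
          unfold DN
          rw [← prod_range_succ]
          congr 2
          omega
        rw [div_mul_eq_mul_div, div_mul_eq_mul_div, div_eq_iff hDN, ← h2]
        ring
      rw [key, PI_odd _ _ hh.le]
      · unfold dLy
        fun_prop
      · intro y
        rw [rb_dLy_odd, hev, neg_sq]
        ring
    have e1 : lam N 0 = lam N (N - 1) := by
      have := lam_refl hN (k := 0) hN
      rw [Nat.sub_zero] at this
      exact this.symm
    simp only [Nat.sub_zero]
    have e2 : PI (fun y => om N a y * gm N (N - 1) y * (Ly y * g y)) h =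
        PI (fun y => om N a y * gm N (N - 1) y * ((Ly y - lam N (N - 1)) * g y)) h +
        PI (fun y => lam N (N - 1) * (om N a y * gm N (N - 1) y * g y)) h := by
      have d1 : Differentiable ℂ (fun y => (Ly y - lam N (N - 1)) * g y) :=
        (rb_Ly_diff.sub_const _).mul hg
      rw [← PI_add hh.le (rb_site_cont hh d1 _) (rb_site_cont' hh hg _ _)]
      apply PI_congr hh.le
      intro y _
      ring
    rw [e2, e0, zero_add, PI_mul, e1]

lemma rb_VV_smul {N a : ℕ} {h : ℝ} (c : ℂ) (g : ℂ → ℂ) :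
    VV N a h (fun y => c * g y) = c • VV N a h g := by
  funext l
  simp only [VV, Pi.smul_apply, smul_eq_mul]
  unfold site
  rw [← PI_mul]
  congr 1
  funext y
  ring

lemma rb_VV_add {N a : ℕ} {h : ℝ} (hh : 0 < h) {f g : ℂ → ℂ} (hf : Differentiable ℂ f)
    (hg : Differentiable ℂ g) : VV N a h (fun y => f y + g y) = VV N a h f + VV N a h g := by
  funext l
  simp only [VV, Pi.add_apply]
  unfold site
  rw [← PI_add hh.le (rb_site_cont hh hf _) (rb_site_cont hh hg _)]
  congr 1
  funext y
  ring

lemma rb_VV_sum {N a : ℕ} {h : ℝ} (hh : 0 < h) {f : ℕ → ℂ → ℂ} (hf : ∀ m, Differentiable ℂ (f m))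
    (n : ℕ) : VV N a h (fun y => ∑ m ∈ range n, f m y) = ∑ m ∈ range n, VV N a h (f m) := by
  induction n with
  | zero =>
    simp only [range_zero, sum_empty]
    have := rb_VV_smul (N := N) (a := a) (h := h) 0 (fun _ => 0)
    simpa using this
  | succ n ih =>
    rw [sum_range_succ, ← ih, ← rb_VV_add hh (Differentiable.fun_sum fun m _ => hf m) (hf n)]
    congr 1
    funext y
    rw [sum_range_succ]

lemma rb_nM {N a : ℕ} {h : ℝ} (hh : 0 < h) {g : ℂ → ℂ} (hg : Differentiable ℂ g)
    (hev : ∀ y, g (-y) = g y) (m : ℕ) (hm : m < N) :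
    nM N m *ᵥ VV N a h g = VV N a h (fun y => gm N m y * g y) := by
  induction m with
  | zero =>
    simp only [nM, Matrix.one_mulVec]
    congr 1
    funext y
    rw [gm_zero, one_mul]
  | succ m ih =>
    have ih' := ih (by omega)
    have hb := rb_bb_ne (N := N) (k := m + 1) (by omega) hm
    have hgm : Differentiable ℂ (fun y => gm N m y * g y) := (gm_differentiable N m).mul hg
    simp only [nM]
    rw [Matrix.smul_mulVec, ← Matrix.mulVec_mulVec, ih', Matrix.sub_mulVec, Matrix.smul_mulVec,
      Matrix.one_mulVec, rb_LM hh hgm (fun y => by rw [hev, Ctx.gm_even])]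
    have h1 : VV N a h (fun y => Ly y * (gm N m y * g y)) =
        bb N (m + 1 : ℕ) • VV N a h (fun y => gm N (m + 1) y * g y) +
          lam N m • VV N a h (fun y => gm N m y * g y) := by
      have hgm' : Differentiable ℂ (fun y => gm N (m + 1) y * g y) :=
        (gm_differentiable N (m + 1)).mul hg
      rw [← rb_VV_smul, ← rb_VV_smul, ← rb_VV_add hh (hgm'.const_mul _) (hgm.const_mul _)]
      congr 1
      funext y
      linear_combination (-g y) * rb_gm_succ hm y
    rw [h1, add_sub_cancel_right, smul_smul, inv_mul_cancel₀ hb, one_smul]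

/-! ### complex conjugation -/

lemma rb_conj_mulVec {N : ℕ} (M : Matrix (Fin N) (Fin N) ℂ) (hM : M.map (starRingEnd ℂ) = M)
    (v : Fin N → ℂ) : M *ᵥ (fun l => (starRingEnd ℂ) (v l)) = fun l => (starRingEnd ℂ) ((M *ᵥ v) l) := by
  funext l
  simp only [Matrix.mulVec, dotProduct, map_sum, map_mul]
  apply sum_congr rfl
  intro k _
  congr 1
  exact (congrFun (congrFun hM l) k).symm

lemma rb_LM_real (N : ℕ) : (LM N).map (starRingEnd ℂ) = LM N := by
  ext a l
  simp only [Matrix.map_apply, LM]
  split_ifs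
  · unfold lam
    exact Complex.conj_ofReal _
  · unfold bb
    exact Complex.conj_ofReal _
  · exact map_zero _

lemma rb_nM_real (N m : ℕ) : (nM N m).map (starRingEnd ℂ) = nM N m := by
  induction m with
  | zero =>
    simp only [nM]
    ext a l
    rw [Matrix.map_apply, Matrix.one_apply]
    split_ifs <;> simp
  | succ m ih =>
    have h1 : (starRingEnd ℂ) (bb N (m + 1 : ℕ)) = bb N (m + 1 : ℕ) := by
      unfold bb
      exact Complex.conj_ofReal _
    have h2 : (starRingEnd ℂ) (lam N m) = lam N m := by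
      unfold lam
      exact Complex.conj_ofReal _
    ext a l
    simp only [nM, Matrix.map_apply, Matrix.smul_apply, Matrix.mul_apply, Matrix.sub_apply,
      smul_eq_mul, map_mul, map_inv₀, map_sum, map_sub, h1, h2]
    congr 1
    apply sum_congr rfl
    intro k _
    have e1 : (starRingEnd ℂ) (LM N a k) = LM N a k := congrFun (congrFun (rb_LM_real N) a) k
    have e2 : (starRingEnd ℂ) (nM N m k l) = nM N m k l := congrFun (congrFun ih k) l
    have e3 : (starRingEnd ℂ) ((1 : Matrix (Fin N) (Fin N) ℂ) a k) = (1 : Matrix (Fin N) (Fin N) ℂ) a k := by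
      rw [Matrix.one_apply]
      split_ifs <;> simp
    rw [e1, e2, e3]

lemma rb_cj_diff {f : ℂ → ℂ} (hf : Differentiable ℂ f) : Differentiable ℂ (cj f) := by
  intro y
  have := (hf ((starRingEnd ℂ) y)).hasDerivAt
  have h2 := this.conj_conj
  rw [Complex.conj_conj] at h2
  exact h2.differentiableAt

lemma rb_cj_even {f : ℂ → ℂ} (hf : ∀ y, f (-y) = f y) (y : ℂ) : cj f (-y) = cj f y := by
  unfold cj
  rw [map_neg, hf]

lemma rb_cj_cj (f : ℂ → ℂ) : cj (cj f) = f := by
  funext y
  unfold cj
  simp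

lemma rb_cj_mul (f g : ℂ → ℂ) : cj (fun y => f y * g y) = fun y => cj f y * cj g y := by
  funext y
  unfold cj
  simp

lemma rb_gm_conj (N m : ℕ) (y : ℂ) : (starRingEnd ℂ) (gm N m ((starRingEnd ℂ) y)) = gm N m y := by
  unfold gm
  rw [map_div₀, map_pow, Complex.conj_ofReal, map_prod]
  congr 1
  apply prod_congr rfl
  intro k _
  rw [map_mul, map_mul, ← Complex.cos_conj, ← Complex.cos_conj, map_ofNat]
  simp

lemma rb_nx_eq (N a : ℕ) (h : ℝ) (f : ℂ → ℂ) :
    cj (nx N a h f) = fun y => ∑ m ∈ range N, (starRingEnd ℂ) (site N a h f m) * gm N m y := by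
  funext y
  unfold cj nx
  rw [map_sum]
  apply sum_congr rfl
  intro m _
  rw [map_mul, rb_gm_conj]

/-- the coefficients of the contribution of a child -/
noncomputable def cf (N : ℕ) (a : ℤ) (h : ℝ) (f : ℂ → ℂ) (m : ℕ) : ℂ :=
  if 0 < a then (starRingEnd ℂ) (site N a.natAbs h f m) else site N a.natAbs h (cj f) m

lemma rb_tc (N : ℕ) (a : ℤ) (d : ℕ) (f : ℂ → ℂ) : tc N a d f =
    fun y => ∑ m ∈ range N, cf N a (d / (a.natAbs : ℝ) ^ 2) f m * gm N m y := by
  unfold tc cf
  split_ifs
  · exact rb_nx_eq _ _ _ _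
  · rfl

lemma rb_tc_diff (N : ℕ) (a : ℤ) (d : ℕ) (f : ℂ → ℂ) : Differentiable ℂ (tc N a d f) := by
  rw [rb_tc]
  exact Differentiable.fun_sum fun m _ => (gm_differentiable N m).const_mul _

lemma rb_tc_even (N : ℕ) (a : ℤ) (d : ℕ) (f : ℂ → ℂ) (y : ℂ) : tc N a d f (-y) = tc N a d f y := by
  rw [rb_tc]
  apply sum_congr rfl
  intro m _
  rw [Ctx.gm_even]

lemma rb_ft_diff (N : ℕ) (t : PTree) : Differentiable ℂ (ft N t) := by
  induction t with
  | leaf a => exact differentiable_const _
  | graft p c hp _ => exact hp.mul (rb_tc_diff _ _ _ _)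

lemma rb_ft_even (N : ℕ) (t : PTree) (y : ℂ) : ft N t (-y) = ft N t y := by
  induction t with
  | leaf a => rfl
  | graft p c hp _ => simp only [ft]; rw [hp, rb_tc_even]

/-! ### the main induction -/

lemma rb_leaf {N : ℕ} (hN : 2 ≤ N) {h : ℝ} (hh : 0 < h) (a : ℕ) (l : Fin N) :
    ((AM N N ^ a) *ᵥ e0 N) l = kp N a * site N a h (fun _ => 1) (N - 1 - l) := by
  have h0 : 0 < N := by omega
  simp only [Matrix.mulVec, dotProduct]
  rw [sum_eq_single ⟨0, h0⟩]
  · simp only [e0, if_true, mul_one]
    rw [AM_entry' hh]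
    congr 1
    unfold site
    apply PI_congr hh.le
    intro y _
    show om N a y * (gm N 0 y * gm N (N - 1 - l) y) = _
    rw [gm_zero]
    ring
  · intro k _ hk
    have : (k : ℕ) ≠ 0 := fun h => hk (Fin.ext h)
    simp only [e0, if_neg this, mul_zero]
  · intro h1; exact absurd (mem_univ _) h1

/-- the vector of a tree as an integral, without the constant -/
noncomputable def TV (N : ℕ) (t : PTree) (h : ℝ) (g : ℂ → ℂ) (l : Fin N) : ℂ :=
  if 0 < t.wt then VV N t.wt.natAbs h (fun y => ft N t y * g y) l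
  else (starRingEnd ℂ) (VV N t.wt.natAbs h (fun y => cj (ft N t) y * cj g y) l)

theorem rb_main {N : ℕ} (hN : 2 ≤ N) {D : ℕ} (t : PTree) (ht : t.Big 1 D) :
    ∀ h : ℝ, 0 < h → ∃ K : ℂ, ‖K‖ = (N ^ 2 / (2 * Real.pi)) ^ t.size ∧
      Vt N t = K • TV N t h (fun _ => 1) := by
  have hN0 : 0 < N := by omega
  induction t with
  | leaf a =>
    intro h hh
    simp only [Vt, twM]
    unfold TV
    by_cases ha : 0 < a
    · refine ⟨kp N a.natAbs, by rw [norm_kp]; simp [PTree.size], ?_⟩
      funext l
      rw [if_pos ha, rb_leaf hN hh]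
      simp only [Pi.smul_apply, smul_eq_mul, PTree.wt, if_pos ha, VV, ft, mul_one]
    · refine ⟨(starRingEnd ℂ) (kp N a.natAbs), by rw [RCLike.norm_conj, norm_kp]; simp [PTree.size], ?_⟩
      funext l
      rw [if_neg ha]
      have h1 := congrArg (starRingEnd ℂ) (rb_leaf hN hh a.natAbs l)
      simp only [Pi.smul_apply, smul_eq_mul, PTree.wt, if_neg ha, VV, ft, cj, map_one, mul_one]
      rw [map_mul] at h1
      rw [← h1]
      simp only [Matrix.mulVec, dotProduct, map_sum, map_mul, Matrix.map_apply]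
      apply sum_congr rfl
      intro k _
      congr 1
      unfold e0
      split_ifs <;> simp
  | graft p c hp hc =>
    intro h hh
    obtain ⟨hp1, hc1, -⟩ := ht
    obtain ⟨K, hK, hKV⟩ := hp hp1 h hh
    have hcw : 1 ≤ c.wt.natAbs := by
      have : ∀ t : PTree, t.Big 1 D → 1 ≤ t.wt.natAbs := by
        intro t
        induction t with
        | leaf a => intro h; exact h
        | graft p c hp _ => intro h; exact hp h.1
      exact this c hc1
    set h' : ℝ := ((c.deg + 1 : ℕ) : ℝ) / (c.wt.natAbs : ℝ) ^ 2 with hh'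
    have hh'0 : 0 < h' := by
      have h1 : (0 : ℝ) < c.wt.natAbs := by exact_mod_cast hcw
      have h2 : (0 : ℝ) < ((c.deg + 1 : ℕ) : ℝ) := by positivity
      positivity
    obtain ⟨L, hL, hLV⟩ := hc hc1 h' hh'0
    refine ⟨(starRingEnd ℂ) L * K, by rw [norm_mul, RCLike.norm_conj, hK, hL]; simp only [PTree.size]; rw [pow_add]; ring, ?_⟩
    -- the coefficients
    have hcoef : ∀ m : Fin N, (starRingEnd ℂ) (Vt N c (Fin.rev m)) = (starRingEnd ℂ) L * cf N c.wt h' (ft N c) m := by
      intro m
      rw [hLV]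
      have e1 : N - 1 - ((Fin.rev m : Fin N) : ℕ) = m := by
        rw [Fin.val_rev]
        have := m.2
        omega
      simp only [Pi.smul_apply, smul_eq_mul, map_mul, TV, VV, cf, e1, mul_one, cj, map_one]
      split_ifs
      · simp
      · simp only [Complex.conj_conj]
        rfl
    -- the action
    have hact : ∀ m : Fin N, nM N m *ᵥ Vt N p =
        K • TV N p h (gm N m) := by
      intro m
      rw [hKV, Matrix.mulVec_smul]
      congr 1
      unfold TV
      by_cases hw : 0 < p.wt
      · simp only [if_pos hw]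
        have d1 : Differentiable ℂ (fun y => ft N p y * 1) := (rb_ft_diff N p).mul_const _
        have h1 := rb_nM (a := p.wt.natAbs) hh d1 (fun y => by rw [rb_ft_even]) m m.2
        refine h1.trans ?_
        congr 1
        funext y
        ring
      · simp only [if_neg hw]
        have d1 : Differentiable ℂ (fun y => cj (ft N p) y * cj (fun _ => 1) y) :=
          (rb_cj_diff (rb_ft_diff N p)).mul (rb_cj_diff (differentiable_const _))
        have h1 := rb_nM (a := p.wt.natAbs) hh d1
          (fun y => by rw [rb_cj_even (rb_ft_even N p), rb_cj_even (fun _ => rfl)]) m m.2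
        rw [rb_conj_mulVec _ (rb_nM_real N m), h1]
        funext l
        congr 2
        funext y
        have e2 : cj (gm N m) y = gm N m y := rb_gm_conj N m y
        rw [e2]
        simp only [cj, map_one]
        ring
    have hsum : Vt N (.graft p c) = ((starRingEnd ℂ) L * K) • ∑ m ∈ range N, cf N c.wt h' (ft N c) m •
        TV N p h (gm N m) := by
      simp only [Vt]
      rw [← Fin.sum_univ_eq_sum_range (fun m => cf N c.wt h' (ft N c) m • TV N p h (gm N m)),
        smul_sum]
      apply sum_congr rfl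
      intro m _
      rw [hcoef, hact, smul_smul, smul_smul]
      congr 1
      ring
    rw [hsum]
    congr 1
    set s : ℕ → ℂ := cf N c.wt h' (ft N c) with hs
    have htc : tc N c.wt (c.deg + 1) (ft N c) = fun y => ∑ m ∈ range N, s m * gm N m y :=
      rb_tc N c.wt (c.deg + 1) (ft N c)
    unfold TV
    by_cases hw : 0 < p.wt
    · have hw' : 0 < (PTree.graft p c).wt := hw
      simp only [if_pos hw, if_pos hw']
      have e1 : (fun y => ft N (.graft p c) y * 1) =
          fun y => ∑ m ∈ range N, s m * (ft N p y * gm N m y) := by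
        funext y
        simp only [ft]
        rw [htc, mul_one, mul_sum]
        apply sum_congr rfl
        intro m _
        ring
      rw [e1, show (PTree.graft p c).wt = p.wt from rfl, rb_VV_sum hh
        (f := fun m y => s m * (ft N p y * gm N m y)) (fun m =>
        (((rb_ft_diff N p).mul (gm_differentiable N m)).const_mul (s m)))]
      funext l
      simp only [Finset.sum_apply]
      apply sum_congr rfl
      intro m _
      rw [rb_VV_smul]
    · have hw' : ¬ 0 < (PTree.graft p c).wt := hw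
      simp only [if_neg hw, if_neg hw']
      have e1 : (fun y => cj (ft N (.graft p c)) y * cj (fun _ => 1) y) =
          fun y => ∑ m ∈ range N, (starRingEnd ℂ) (s m) * (cj (ft N p) y * cj (gm N m) y) := by
        funext y
        simp only [ft, cj]
        rw [htc, map_one, mul_one, map_mul, map_sum, mul_sum]
        apply sum_congr rfl
        intro m _
        rw [map_mul]
        ring
      rw [e1, show (PTree.graft p c).wt = p.wt from rfl, rb_VV_sum hh
        (f := fun m y => (starRingEnd ℂ) (s m) * (cj (ft N p) y * cj (gm N m) y)) (fun m =>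
        (((rb_cj_diff (rb_ft_diff N p)).mul (rb_cj_diff (gm_differentiable N m))).const_mul _))]
      funext l
      simp only [Finset.sum_apply, map_sum]
      apply sum_congr rfl
      intro m _
      rw [rb_VV_smul]
      simp only [Pi.smul_apply, smul_eq_mul, map_mul, Complex.conj_conj]

end Pool.Agent.Helper48.TG

namespace Pool.Agent.Helper9.TG

open Complex Finset
open Pool.Agent.Helper9.TB Pool.Agent.Helper9.TF
open Pool.Agent.Helper48.TG

theorem tree_integral {N : ℕ} (hN : 2 ≤ N) {t : PTree} {D : ℕ} (ht : t.Big 1 D) (hd : 1 ≤ t.deg) :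
    ‖Vt N t ⟨N - 1, by omega⟩‖ = (N ^ 2 / (2 * Real.pi)) ^ t.size * ‖rt N t‖ := by
  have hw : 1 ≤ t.wt.natAbs := by
    have : ∀ t : PTree, t.Big 1 D → 1 ≤ t.wt.natAbs := by
      intro t
      induction t with
      | leaf a => intro h; exact h
      | graft p c hp _ => intro h; exact hp h.1
    exact this t ht
  have h1 : (0 : ℝ) < t.wt.natAbs := by exact_mod_cast hw
  have h2 : (0 : ℝ) < t.deg := by exact_mod_cast hd
  obtain ⟨K, hK, hV⟩ := rb_main hN t ht (t.deg / (t.wt.natAbs : ℝ) ^ 2) (by positivity)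
  rw [hV, Pi.smul_apply, smul_eq_mul, norm_mul, hK]
  congr 1
  unfold rt TV VV
  have e1 : N - 1 - (((⟨N - 1, by omega⟩ : Fin N)) : ℕ) = 0 := by simp
  simp only [e1]
  by_cases hp : 0 < t.wt
  · simp only [if_pos hp, mul_one]
  · simp only [if_neg hp, RCLike.norm_conj]
    have : (fun y => cj (ft N t) y * cj (fun _ => 1) y) = cj (ft N t) := by
      funext y
      simp [cj]
    rw [this]

end Pool.Agent.Helper9.TG
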